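import Mathlib
import Pool.Agent.Helper26.OT.Eng

/-!
# HI: the engine for a system which depends periodically on the time (EP)
-/

set_option autoImplicit false

namespace Pool.Agent.Helper26.HI

open MvPolynomial Pool.Agent.Helper61.TH Pool.Agent.Helper87.FK Pool.Agent.Helper26.OB Pool.Agent.Helper26.OS

noncomputable section

/-- the composition of the maps of the times `n, ..., n + j - 1` -/
def comp70 {ι : Type} {k : ℕ} (P : ℕ → Fin k → ι → MvPolynomial ι ℂ) (π : Fin k → Fin k) (n : ℕ) :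
    ℕ → Fin k → ι → MvPolynomial ι ℂ
  | 0, _ => fun i => X i
  | j + 1, b => fun i => bind₁ (comp70 P π n j (π b)) (P (n + j) b i)

theorem comp70_evI {ι : Type} [Fintype ι] [DecidableEq ι] {k : ℕ}
    (P : ℕ → Fin k → ι → MvPolynomial ι ℂ) (π : Fin k → Fin k)
    (Y : ℕ → Fin k → ι → ℂ) (hstep : ∀ n b, Y (n + 1) b = evI (P n b) (Y n (π b))) (n j : ℕ)
    (b : Fin k) : evI (comp70 P π n j b) (Y n (π^[j] b)) = Y (n + j) b := by
  induction j generalizing b with
  | zero =>
    funext i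
    exact eval_X i
  | succ j ih =>
    funext i
    change eval (Y n (π^[j + 1] b)) (bind₁ (comp70 P π n j (π b)) (P (n + j) b i)) = Y (n + j + 1) b i
    rw [evI_bind, Function.iterate_succ_apply, ih (π b), hstep (n + j) b]
    rfl

theorem comp70_per {ι : Type} {k : ℕ} (P : ℕ → Fin k → ι → MvPolynomial ι ℂ) (π : Fin k → Fin k)
    (T N₁ : ℕ) (hper : ∀ n, N₁ ≤ n → P (n + T) = P n) (n j : ℕ) (hn : N₁ ≤ n) (b : Fin k) :
    comp70 P π (n + T) j b = comp70 P π n j b := by
  induction j generalizing b with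
  | zero => rfl
  | succ j ih =>
    funext i
    change bind₁ (comp70 P π (n + T) j (π b)) (P (n + T + j) b i) =
      bind₁ (comp70 P π n j (π b)) (P (n + j) b i)
    have h1 : n + T + j = n + j + T := by ring
    rw [ih (π b), h1, hper (n + j) (by omega)]

theorem comp70_per' {ι : Type} {k : ℕ} (P : ℕ → Fin k → ι → MvPolynomial ι ℂ) (π : Fin k → Fin k)
    (T N₁ : ℕ) (hper : ∀ n, N₁ ≤ n → P (n + T) = P n) (n j m : ℕ) (hn : N₁ ≤ n) (b : Fin k) :
    comp70 P π (n + T * m) j b = comp70 P π n j b := by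
  induction m with
  | zero => rfl
  | succ m ih =>
    have h1 : n + T * (m + 1) = (n + T * m) + T := by ring
    rw [h1, comp70_per P π T N₁ hper _ j (by omega), ih]

theorem comp70_coeff {ι : Type} {k : ℕ} {S : Type} [CommRing S]
    (R : Subring S) (f : ℂ →+* S) (P : ℕ → Fin k → ι → MvPolynomial ι ℂ) (π : Fin k → Fin k)
    (hP : ∀ n b i s, f (coeff s (P n b i)) ∈ R) (n j : ℕ) (b : Fin k) (i : ι) (s : ι →₀ ℕ) :
    f (coeff s (comp70 P π n j b i)) ∈ R := by
  have key : ∀ (j : ℕ) (b : Fin k) (i : ι),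
      map f (comp70 P π n j b i) ∈ (Set.range (map (σ := ι) R.subtype)) := by
    intro j
    induction j with
    | zero =>
      intro b i
      refine ⟨X i, ?_⟩
      change map R.subtype (X i) = map f (X i)
      rw [map_X, map_X]
    | succ j ih =>
      intro b i
      choose Q hQ using ih
      have h1 : map f (P (n + j) b i) ∈ Set.range (map (σ := ι) R.subtype) := by
        rw [mem_range_map_iff_coeffs_subset]
        intro c hc
        rw [Finset.mem_coe, mem_coeffs_iff] at hc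
        obtain ⟨e, he, rfl⟩ := hc
        rw [coeff_map]
        exact ⟨⟨_, hP (n + j) b i e⟩, rfl⟩
      obtain ⟨P', hP'⟩ := h1
      refine ⟨bind₁ (Q (π b)) P', ?_⟩
      change map R.subtype (bind₁ (Q (π b)) P') =
        map f (bind₁ (comp70 P π n j (π b)) (P (n + j) b i))
      rw [map_bind₁, map_bind₁, hP']
      congr 2
      funext l
      exact hQ (π b) l
  obtain ⟨Q, hQ⟩ := key j b i
  rw [← coeff_map, ← hQ, coeff_map]
  exact (coeff s Q).2

theorem eval_mem70 {ι : Type} [Fintype ι] {S : Type} [CommRing S] (R : Subring S) (f : ℂ →+* S)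
    (P : MvPolynomial ι ℂ) (hP : ∀ s, f (coeff s P) ∈ R) (y : ι → ℂ) (hy : ∀ i, f (y i) ∈ R) :
    f (eval y P) ∈ R := by
  rw [eval_eq', map_sum]
  refine Subring.sum_mem R fun s _ => ?_
  rw [map_mul]
  refine R.mul_mem (hP s) ?_
  rw [map_prod]
  refine Subring.prod_mem R fun i _ => ?_
  rw [map_pow]
  exact R.pow_mem (hy i) _

theorem comp70_jac {ι : Type} [Fintype ι] [DecidableEq ι] {k : ℕ} {p : ℕ} [Fact p.Prime]
    (P : ℕ → Fin k → ι → MvPolynomial ι ℂ) (τ : ℂ →+* PadicAlgCl p) (π : Fin k → Fin k)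
    (Y : ℕ → Fin k → ι → ℂ) (hstep : ∀ n b, Y (n + 1) b = evI (P n b) (Y n (π b)))
    (H : ∀ a, Adm π a a → ∀ n, ‖τ (jacI (P n a) (Y n (π a))).det‖ = 1) (n j : ℕ) (b : Fin k)
    (hb : Adm π b b) : ‖τ (jacI (comp70 P π n j b) (Y n (π^[j] b))).det‖ = 1 := by
  induction j generalizing b with
  | zero =>
    change ‖τ (jacI (fun i => (X i : MvPolynomial ι ℂ)) (Y n b)).det‖ = 1
    rw [jacI_id, Matrix.det_one, map_one, norm_one]
  | succ j ih =>
    have hb' : Adm π (π b) (π b) := by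
      obtain ⟨⟨m, hm⟩, -⟩ := hb
      refine ⟨⟨m, ?_⟩, ⟨0, rfl⟩⟩
      rw [← Function.iterate_succ_apply, Function.iterate_succ_apply', hm]
    change ‖τ (jacI (fun i => bind₁ (comp70 P π n j (π b)) (P (n + j) b i)) (Y n (π^[j + 1] b))).det‖ = 1
    rw [jacI_comp, Matrix.det_mul, map_mul, norm_mul, Function.iterate_succ_apply, ih (π b) hb',
      mul_one, comp70_evI P π Y hstep]
    exact H b hb (n + j)

/-- a set which is a union of progressions in every residue class -/
theorem union_ap70 {R : Set ℕ} (T : ℕ) (hT : 1 ≤ T) (h : ∀ r < T, ∃ S : Finset (ℕ × ℕ),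
    {m | r + T * m ∈ R} = {m | ∃ q ∈ S, ∃ j, m = q.1 + q.2 * j}) :
    ∃ S : Finset (ℕ × ℕ), R = {m | ∃ q ∈ S, ∃ j, m = q.1 + q.2 * j} := by
  classical
  choose! S hS using h
  refine ⟨(Finset.range T).biUnion fun r => (S r).image fun q => (r + T * q.1, T * q.2), ?_⟩
  ext n
  constructor
  · intro hn
    have hr : n % T < T := Nat.mod_lt _ hT
    have h1 : n / T ∈ {m | n % T + T * m ∈ R} := by
      change n % T + T * (n / T) ∈ R
      rwa [Nat.mod_add_div]
    rw [hS _ hr] at h1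
    obtain ⟨q, hq, j, hj⟩ := h1
    refine ⟨(n % T + T * q.1, T * q.2), Finset.mem_biUnion.2 ⟨n % T, Finset.mem_range.2 hr,
      Finset.mem_image.2 ⟨q, hq, rfl⟩⟩, j, ?_⟩
    change n = n % T + T * q.1 + T * q.2 * j
    calc n = n % T + T * (n / T) := (Nat.mod_add_div n T).symm
      _ = _ := by rw [hj]; ring
  · rintro ⟨q, hq, j, rfl⟩
    obtain ⟨r, hr, hq⟩ := Finset.mem_biUnion.1 hq
    obtain ⟨q', hq', rfl⟩ := Finset.mem_image.1 hq
    have hr' := Finset.mem_range.1 hr
    have h1 : q'.1 + q'.2 * j ∈ {m | r + T * m ∈ R} := by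
      rw [hS r hr']
      exact ⟨q', hq', j, rfl⟩
    have h2 : r + T * (q'.1 + q'.2 * j) ∈ R := h1
    change r + T * q'.1 + T * q'.2 * j ∈ R
    have h3 : r + T * q'.1 + T * q'.2 * j = r + T * (q'.1 + q'.2 * j) := by ring
    rw [h3]
    exact h2

/-- **EP** (from `engC` of Helper26/OT/Eng.lean, applied to the words over one period): the system `P n` is used at the
time `n`, and `P (n + T) = P n` for `n ≥ N₁` -/
theorem engP {ι : Type} [Fintype ι] [DecidableEq ι] {k : ℕ} (P : ℕ → Fin k → ι → MvPolynomial ι ℂ) (T N₁ : ℕ)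
    (hT : 1 ≤ T) (hper : ∀ n, N₁ ≤ n → P (n + T) = P n) (p : ℕ) [Fact p.Prime] (hp3 : 3 ≤ p)
    (τ : ℂ →+* PadicAlgCl p) (hP : ∀ n b i s, ‖τ (coeff s (P n b i))‖ ≤ 1) (π : Fin k → Fin k)
    (Y : ℕ → Fin k → ι → ℂ) (hY : ∀ b i, ‖τ (Y 0 b i)‖ ≤ 1) (hstep : ∀ n b, Y (n + 1) b = evI (P n b) (Y n (π b)))
    (H : ∀ a, Adm π a a → ∀ n, ‖τ (jacI (P n a) (Y n (π a))).det‖ = 1)
    (V : Set (MvPolynomial (Fin k × ι) ℂ)) : ∃ S : Finset (ℕ × ℕ),
      {m : ℕ | ∀ G ∈ V, eval (fun q => Y m q.1 q.2) G = 0} = {m | ∃ q ∈ S, ∃ j, m = q.1 + q.2 * j} := by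
  have hYn : ∀ n b i, τ (Y n b i) ∈ (Oc p).toSubring := by
    intro n
    induction n with
    | zero => exact fun b i => mem_Oc.2 (hY b i)
    | succ n ih =>
      intro b i
      rw [hstep n b]
      exact eval_mem70 (Oc p).toSubring τ (P n b i) (fun s => mem_Oc.2 (hP n b i s)) _
        fun l => ih (π b) l
  refine Pool.Agent.Helper26.OT.shift_ap N₁ (union_ap70 T hT fun r _ => ?_)
  set N := N₁ + r with hN
  have hiter : ∀ m, (sysI (comp70 P π N T) (π^[T]))^[m] (Y N) = Y (N + T * m) := by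
    intro m
    induction m with
    | zero => rfl
    | succ m ih =>
      rw [Function.iterate_succ_apply', ih]
      funext b
      change evI (comp70 P π N T b) (Y (N + T * m) (π^[T] b)) = _
      rw [← comp70_per' P π T N₁ hper N T m (by omega) b, comp70_evI P π Y hstep]
      have h1 : N + T * m + T = N + T * (m + 1) := by ring
      rw [h1]
  obtain ⟨S, hS⟩ := Pool.Agent.Helper26.OT.engC (comp70 P π N T) p hp3 τ
    (fun b i s => mem_Oc.1 (comp70_coeff (Oc p).toSubring τ P π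
      (fun n b i s => mem_Oc.2 (hP n b i s)) N T b i s)) (π^[T]) (Y N)
    (fun b i => mem_Oc.1 (hYn N b i)) (by
      intro a ha m
      have ha' : Adm π a a := by
        obtain ⟨⟨l, hl⟩, -⟩ := ha
        refine ⟨⟨T * (l + 1) - 1, ?_⟩, ⟨0, rfl⟩⟩
        have h1 : T * (l + 1) - 1 + 1 = T * (l + 1) := by
          have : 0 < T * (l + 1) := Nat.mul_pos hT (Nat.succ_pos l)
          omega
        rw [h1, Function.iterate_mul]
        exact hl
      rw [hiter, ← comp70_per' P π T N₁ hper N T m (by omega) a]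
      exact comp70_jac P τ π Y hstep H (N + T * m) T a ha') V
  refine ⟨S, ?_⟩
  rw [← hS]
  ext m
  change (∀ G ∈ V, eval (fun q => Y (r + T * m + N₁) q.1 q.2) G = 0) ↔
    ∀ G ∈ V, eval (fun q => (sysI (comp70 P π N T) (π^[T]))^[m] (Y N) q.1 q.2) G = 0
  rw [hiter]
  have h1 : r + T * m + N₁ = N + T * m := by rw [hN]; ring
  rw [h1]

end

end Pool.Agent.Helper26.HI
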