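import Mathlib
import Pool.Agent.Helper26.HI.Defs

/-!
# HI: Hensel's lemma with parameters (HC2)
-/

set_option autoImplicit false

namespace Pool.Agent.Helper26.HI

open MvPolynomial

noncomputable section

/-- the substitution `t ↦ t₀ + y` -/
def shift70 {r : ℕ} (t₀ : Fin r → ℤ) : MvPolynomial (Fin r) ℤ →+* MvPolynomial (Fin r) ℤ :=
  eval₂Hom C fun k => C (t₀ k) + X k

theorem eval_shift70 {r : ℕ} (t₀ y : Fin r → ℤ) :
    (eval y).comp (shift70 t₀) = eval fun k => t₀ k + y k := by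
  apply MvPolynomial.ringHom_ext
  · intro a
    simp [shift70]
  · intro k
    simp [shift70]

theorem eval_V70 {r : ℕ} (P : Polynomial (MvPolynomial (Fin r) ℤ)) (t₀ y : Fin r → ℤ)
    (g : MvPolynomial (Fin r) ℤ) :
    eval y ((P.map (shift70 t₀)).eval g) = V P (fun k => t₀ k + y k) (eval y g) := by
  unfold V
  rw [← Polynomial.eval₂_at_apply, ← Polynomial.eval_map, Polynomial.map_map, eval_shift70]

theorem V_congr70 {r : ℕ} (Q : Polynomial (MvPolynomial (Fin r) ℤ)) (p : ℕ) (t t' : Fin r → ℤ)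
    (x x' : ℤ) (ht : ∀ k, (p : ℤ) ∣ t k - t' k) (hx : (p : ℤ) ∣ x - x') :
    (p : ℤ) ∣ V Q t x - V Q t' x' := by
  have key : ∀ (t : Fin r → ℤ) (x : ℤ), Int.castRingHom (ZMod p) (V Q t x) =
      (Q.map (eval₂Hom (Int.castRingHom (ZMod p)) fun k => ((t k : ℤ) : ZMod p))).eval
        ((x : ℤ) : ZMod p) := by
    intro t x
    unfold V
    rw [← Polynomial.eval₂_at_apply, ← Polynomial.eval_map, Polynomial.map_map]
    congr 2
    apply MvPolynomial.ringHom_ext
    · intro a
      simp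
    · intro k
      simp
  have cast_eq : ∀ a b : ℤ, (p : ℤ) ∣ a - b → ((a : ℤ) : ZMod p) = ((b : ℤ) : ZMod p) := by
    intro a b h
    rw [ZMod.intCast_eq_intCast_iff]
    exact (Int.modEq_iff_dvd.2 h).symm
  rw [← ZMod.intCast_zmod_eq_zero_iff_dvd, Int.cast_sub, sub_eq_zero]
  change Int.castRingHom (ZMod p) (V Q t x) = Int.castRingHom (ZMod p) (V Q t' x')
  rw [key, key, cast_eq x x' hx]
  have : (fun k => ((t k : ℤ) : ZMod p)) = fun k => ((t' k : ℤ) : ZMod p) :=
    funext fun k => cast_eq _ _ (ht k)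
  rw [this]

/-- **HC2**: Hensel's lemma with parameters -/
theorem hensel_poly {r : ℕ} (P : Polynomial (MvPolynomial (Fin r) ℤ)) (p : ℕ) (hp : p.Prime) (t₀ : Fin r → ℤ)
    (x₀ : ℤ) (h1 : ¬ (p : ℤ) ∣ V P.derivative t₀ x₀) (w : ℕ) :
    ∃ g : MvPolynomial (Fin r) ℤ, ∀ (u : Fin r → ℤ) (x : ℤ), V P (fun k => t₀ k + p * u k) x = 0 →
      (p : ℤ) ∣ x - x₀ → (p : ℤ) ^ w ∣ x - eval (fun k => p * u k) g := by
  obtain ⟨c, hc⟩ : ∃ c : ℤ, (p : ℤ) ∣ 1 - c * V P.derivative t₀ x₀ := by
    have hcop : IsCoprime (p : ℤ) (V P.derivative t₀ x₀) :=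
      (Int.prime_iff_natAbs_prime.2 (by simpa using hp)).coprime_iff_not_dvd.2 h1
    obtain ⟨a, b, hab⟩ := hcop
    exact ⟨b, a, by rw [← hab]; ring⟩
  induction w with
  | zero => exact ⟨0, fun u x _ _ => by rw [pow_zero]; exact one_dvd _⟩
  | succ w ih =>
    rcases Nat.eq_zero_or_pos w with rfl | hw
    · refine ⟨C x₀, fun u x _ hx => ?_⟩
      rw [zero_add, pow_one, eval_C]
      exact hx
    obtain ⟨g, hg⟩ := ih
    refine ⟨g - C c * (P.map (shift70 t₀)).eval g, fun u x h0 hx => ?_⟩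
    have hd := hg u x h0 hx
    rw [map_sub, map_mul, eval_C, eval_V70]
    set G : ℤ := eval (fun k => (p : ℤ) * u k) g with hG
    set t : Fin r → ℤ := fun k => t₀ k + p * u k with ht
    have hpd : (p : ℤ) ∣ x - G := dvd_trans (dvd_pow_self _ hw.ne') hd
    obtain ⟨k, hk⟩ := (P.map (eval t)).binomExpansion G (x - G)
    rw [add_sub_cancel, Polynomial.derivative_map] at hk
    have h2 : V P t x = V P t G + V P.derivative t G * (x - G) + k * (x - G) ^ 2 := by
      exact hk
    have h3 : (p : ℤ) ∣ V P.derivative t G - V P.derivative t₀ x₀ := by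
      refine V_congr70 _ p _ _ _ _ (fun k => ?_) ?_
      · rw [ht]
        exact ⟨u k, by ring⟩
      · have : G - x₀ = (x - x₀) - (x - G) := by ring
        rw [this]
        exact dvd_sub hx hpd
    have h4 : x - (G - c * V P t G) =
        (x - G) * ((1 - c * V P.derivative t₀ x₀) -
          c * (V P.derivative t G - V P.derivative t₀ x₀) - c * k * (x - G)) := by
      have h5 : V P t G = - (V P.derivative t G * (x - G) + k * (x - G) ^ 2) := by
        rw [h0] at h2
        linarith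
      rw [h5]
      ring
    rw [h4, pow_succ]
    refine mul_dvd_mul hd ?_
    exact dvd_sub (dvd_sub hc (dvd_mul_of_dvd_right h3 _)) (dvd_mul_of_dvd_right hpd _)

end

end Pool.Agent.Helper26.HI
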