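import Mathlib
import Pool.Agent.Helper26.HI.Defs
import Pool.Agent.Helper34.HI.DetDvd
import Pool.Agent.Helper70.HI.Hensel

/-!
# HI: the determinant of the monomials at points of one residue class (HC12, from HC1)
-/

set_option autoImplicit false

namespace Pool.Agent.Helper26.HI

open MvPolynomial

noncomputable section

theorem det_sub_dvd70 {J : Type} [Fintype J] [DecidableEq J] (m : ℤ) (A B : Matrix J J ℤ)
    (h : ∀ i j, m ∣ A i j - B i j) : m ∣ A.det - B.det := by
  rw [← Ideal.mem_span_singleton, ← Ideal.Quotient.eq, RingHom.map_det, RingHom.map_det]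
  congr 1
  ext i j
  simp only [RingHom.mapMatrix_apply, Matrix.map_apply]
  rw [Ideal.Quotient.eq, Ideal.mem_span_singleton]
  exact h i j

/-- **HC12**: the determinant of the monomials at points of one residue class -/
theorem class_dvd {r : ℕ} (P : Polynomial (MvPolynomial (Fin r) ℤ)) (p : ℕ) (hp : p.Prime) (t₀ : Fin r → ℤ)
    (x₀ : ℤ) (h1 : ¬ (p : ℤ) ∣ V P.derivative t₀ x₀) {J : Type} [Fintype J] [DecidableEq J]
    (a : J → Fin r → ℕ) (b : J → ℕ) (w : ℕ)
    (hw : ∀ κ : J → (Fin r →₀ ℕ), Function.Injective κ → w ≤ ∑ j, ∑ k, κ j k)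
    (t : J → Fin r → ℤ) (x : J → ℤ) (ht : ∀ i k, (p : ℤ) ∣ t i k - t₀ k) (hx : ∀ i, (p : ℤ) ∣ x i - x₀)
    (hP : ∀ i, V P (t i) (x i) = 0) :
    (p : ℤ) ^ w ∣ (Matrix.of fun i j => (∏ k, t i k ^ a j k) * x i ^ b j).det := by
  obtain ⟨g, hg⟩ := hensel_poly P p hp t₀ x₀ h1 w
  choose u hu using ht
  have hteq : ∀ i, t i = fun k => t₀ k + p * u i k := by
    intro i
    funext k
    have := hu i k
    linarith
  have h2 := det_dvd (p : ℤ) w hw (fun j => (∏ k, (C (t₀ k) + X k) ^ a j k) * g ^ b j) u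
  have h3 := det_sub_dvd70 ((p : ℤ) ^ w)
    (Matrix.of fun i j => (∏ k, t i k ^ a j k) * x i ^ b j)
    (Matrix.of fun i j => eval (fun k => (p : ℤ) * u i k)
      ((∏ k, (C (t₀ k) + X k) ^ a j k) * g ^ b j)) (by
      intro i j
      have h4 : (p : ℤ) ^ w ∣ x i - eval (fun k => (p : ℤ) * u i k) g :=
        hg (u i) (x i) (by rw [← hteq]; exact hP i) (hx i)
      simp only [Matrix.of_apply, map_mul, map_prod, map_pow, map_add, eval_C, eval_X]
      have h5 : (∏ k, t i k ^ a j k) = ∏ k, (t₀ k + p * u i k) ^ a j k := by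
        rw [hteq i]
      rw [h5, ← mul_sub]
      exact dvd_mul_of_dvd_right (dvd_trans h4 (sub_dvd_pow_sub_pow _ _ _)) _)
  have h6 := dvd_add h3 h2
  rwa [sub_add_cancel] at h6

end

end Pool.Agent.Helper26.HI
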